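import Pool.Agent.PFC.StmtsB6

/-!
# Squad PFC, row CPS: the frame of the corner of the group ring
-/

open scoped BigOperators

noncomputable section

namespace Pool.Agent.PFC.H38

open Pool.Agent.PFC Pool.Agent.Helper51_AWC Pool.Agent.Helper79_WRA Pool.Agent.PP Pool.Agent.PP.KF
open Pool.Agent.PP.K9 Pool.Agent.PP.K9.H97 Pool.Agent.PP.H75 Pool.Agent.PP.T3 Pool.Agent.PP.T2

/-- the group `G` with the two actions of `W × W` and of `W` -/
def Om {G W : Type} [Group G] [Group W] (_ : W →* G) : Type := G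

section

variable {G W : Type} [Group G] [Finite G] [Group W] (ι : W →* G)

instance : Fintype (Om ι) := Fintype.ofFinite G

instance actB : MulAction (W × W) (Om ι) where
  smul := fun w g => (ι w.1 * (show G from g) * (ι w.2)⁻¹ : G)
  one_smul := by
    intro g
    change ι (1 : W) * (show G from g) * (ι (1 : W))⁻¹ = (show G from g)
    simp
  mul_smul := by
    intro x y g
    change ι (x.1 * y.1) * (show G from g) * (ι (x.2 * y.2))⁻¹ =
      ι x.1 * (ι y.1 * (show G from g) * (ι y.2)⁻¹) * (ι x.2)⁻¹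
    rw [map_mul, map_mul]
    group

instance actC : MulAction W (Om ι) where
  smul := fun w g => (ι w * (show G from g) * (ι w)⁻¹ : G)
  one_smul := by
    intro g
    change ι (1 : W) * (show G from g) * (ι (1 : W))⁻¹ = (show G from g)
    simp
  mul_smul := by
    intro x y g
    change ι (x * y) * (show G from g) * (ι (x * y))⁻¹ =
      ι x * (ι y * (show G from g) * (ι y)⁻¹) * (ι x)⁻¹
    rw [map_mul]
    group

variable {F : Type} [Field F] {j : G → F} (hj : mulF j j = j)
  (hv : ∀ w x, j (ι w * x * (ι w)⁻¹) = j x)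

/-- the basis vectors -/
def bb (g : Om ι) : Crn hj := mkj hj (dl F (show G from g))

/-- the coordinates -/
def cc (g : Om ι) : Crn hj →ₗ[F] F where
  toFun := fun a => cv a (show G from g)
  map_add' := fun _ _ => rfl
  map_smul' := fun _ _ => rfl

theorem cv_jal_mul (w : W) (x : Crn hj) (y : G) :
    cv (jal hj ι hv w * x) y = cv x ((ι w)⁻¹ * y) := by
  rw [cv_mul, cv_jal, H20.mulF_assoc, cv_l, mulF_dl_l]

theorem cv_mul_jal (w : W) (x : Crn hj) (y : G) :
    cv (x * jal hj ι hv w) y = cv x (y * (ι w)⁻¹) := by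
  rw [cv_mul, cv_jal, dl_comm (hv w), ← H20.mulF_assoc, cv_r, mulF_dl_r]

theorem cv_bi (w : W × W) (x : Crn hj) (y : G) :
    cv (bi F (jal hj ι hv) w x) y = cv x ((ι w.1)⁻¹ * y * ι w.2) := by
  change cv (jal hj ι hv w.1 * (x * jal hj ι hv w.2⁻¹)) y = _
  rw [cv_jal_mul, cv_mul_jal, map_inv, inv_inv]

theorem cv_sum {κ : Type} (s : Finset κ) (f : κ → Crn hj) :
    cv (∑ k ∈ s, f k) = ∑ k ∈ s, cv (f k) := by
  classical
  induction s using Finset.induction_on with
  | empty => rfl
  | insert a s ha ih => rw [Finset.sum_insert ha, Finset.sum_insert ha, cv_add, ih]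

theorem mulF_sum {κ : Type} (s : Finset κ) (a : G → F) (f : κ → G → F) :
    mulF a (∑ k ∈ s, f k) = ∑ k ∈ s, mulF a (f k) := by
  classical
  induction s using Finset.induction_on with
  | empty => simp [H20.mulF_zero]
  | insert b s hb ih => rw [Finset.sum_insert hb, Finset.sum_insert hb, H20.mulF_add, ih]

theorem sum_mulF {κ : Type} (s : Finset κ) (a : G → F) (f : κ → G → F) :
    mulF (∑ k ∈ s, f k) a = ∑ k ∈ s, mulF (f k) a := by
  classical
  induction s using Finset.induction_on with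
  | empty => simp [H20.zero_mulF]
  | insert b s hb ih => rw [Finset.sum_insert hb, Finset.sum_insert hb, H20.add_mulF, ih]

theorem fr_sum (m : Crn hj) : ∑ ω : Om ι, cc ι hj ω m • bb ι hj ω = m := by
  classical
  apply cv_inj
  rw [cv_sum]
  have h1 : ∀ ω : Om ι, cv (cc ι hj ω m • bb ι hj ω) =
      mulF j (mulF (cv m (show G from ω) • dl F (show G from ω)) j) := by
    intro ω
    rw [cv_smul, bb, cv_mkj, H20.smul_mulF, H20.mulF_smul]
    rfl
  rw [Finset.sum_congr rfl fun ω _ => h1 ω, ← mulF_sum, ← sum_mulF]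
  have h2 : (∑ ω : Om ι, cv m (show G from ω) • dl F (show G from ω)) = cv m := by
    funext y
    rw [Finset.sum_apply, Finset.sum_eq_single (show Om ι from y)]
    · simp [dl]
    · intro b _ hb
      have h3 : dl F (show G from b) y = 0 := by
        unfold dl
        rw [if_neg]
        intro h
        exact hb h.symm
      rw [Pi.smul_apply, h3, smul_zero]
    · intro h
      exact absurd (Finset.mem_univ _) h
  rw [h2, cv_r, cv_l]

include hj hv in
theorem key (u v : W) (g : G) : mulF j (mulF (dl F (ι u * g * (ι v)⁻¹)) j) =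
    mulF (mulF (dl F (ι u)) j) (mulF (mulF j (mulF (dl F g) j)) (mulF (dl F (ι v⁻¹)) j)) := by
  have h1 : mulF (mulF j (mulF (dl F g) j)) (mulF (dl F (ι v⁻¹)) j) =
      mulF j (mulF (dl F (g * (ι v)⁻¹)) j) := by
    rw [H20.mulF_assoc, H20.mulF_assoc, ← H20.mulF_assoc j (dl F (ι v⁻¹)),
      ← dl_comm (hv v⁻¹), H20.mulF_assoc (dl F (ι v⁻¹)), hj,
      ← H20.mulF_assoc (dl F _) (dl F _), dl_mul, map_inv]
  have h2 : mulF (mulF (dl F (ι u)) j) (mulF j (mulF (dl F (g * (ι v)⁻¹)) j)) =
      mulF (mulF (dl F (ι u)) j) (mulF (dl F (g * (ι v)⁻¹)) j) := by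
    rw [H20.mulF_assoc, ← H20.mulF_assoc j j, hj, ← H20.mulF_assoc]
  rw [h1, h2, dl_comm (hv u), H20.mulF_assoc, ← H20.mulF_assoc (dl F (ι u)), dl_mul, mul_assoc]

theorem frB : IsFr (bi F (jal hj ι hv)) (bb ι hj) (cc ι hj) := by
  refine ⟨?_, ?_, fr_sum ι hj⟩
  · intro h ω
    apply cv_inj
    exact key ι hj hv h.1 h.2 ω
  · intro h ω m
    change cv (bi F (jal hj ι hv) h m) (ι h.1 * (show G from ω) * (ι h.2)⁻¹) =
      cv m (show G from ω)
    rw [cv_bi]
    congr 1
    group

theorem frC : IsFr (cj F (jal hj ι hv)) (bb ι hj) (cc ι hj) := by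
  refine ⟨?_, ?_, fr_sum ι hj⟩
  · intro h ω
    exact (frB ι hj hv).1 (h, h) ω
  · intro h ω m
    exact (frB ι hj hv).2.1 (h, h) ω m

end

theorem cps : CpsStmt := by
  intro ℓ _ F _ _ G W _ _ _ _ ι hι hW j hj hv
  have hW2 : IsPGroup ℓ (W × W) := by
    intro w
    obtain ⟨a, ha⟩ := hW w.1
    obtain ⟨b, hb⟩ := hW w.2
    refine ⟨a + b, ?_⟩
    refine Prod.ext ?_ ?_
    · rw [Prod.pow_fst, pow_add, pow_mul, ha, one_pow]
      rfl
    · rw [Prod.pow_snd, pow_add, Nat.mul_comm, pow_mul, hb, one_pow]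
      rfl
  refine ⟨⟨Om ι, inferInstance, actB ι, bb ι hj, cc ι hj, frB ι hj hv, ?_⟩, ?_, ?_⟩
  · intro ω
    refine ⟨(show G from ω), fun w => ?_⟩
    rw [MulAction.mem_stabilizer_iff]
    change ι w.1 * (show G from ω) * (ι w.2)⁻¹ = (show G from ω) ↔ _
    rw [mul_inv_eq_iff_eq_mul]
  · intro K a ha
    rw [frame_iff (frB ι hj hv) K (hW2.to_subgroup K) ha]
    constructor
    · intro h g hg
      refine h (show Om ι from g) fun w hw => ?_
      change ι w.1 * g * (ι w.2)⁻¹ = g
      rw [mul_inv_eq_iff_eq_mul]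
      exact hg w hw
    · intro h ω hω
      refine h (show G from ω) fun w hw => ?_
      have := hω w hw
      change ι w.1 * (show G from ω) * (ι w.2)⁻¹ = (show G from ω) at this
      rw [mul_inv_eq_iff_eq_mul] at this
      exact this
  · intro Q a ha
    rw [frame_iff (frC ι hj hv) Q (hW.to_subgroup Q) ha]
    constructor
    · intro h g hg
      refine h (show Om ι from g) fun w hw => ?_
      change ι w * g * (ι w)⁻¹ = g
      rw [mul_inv_eq_iff_eq_mul]
      rw [Subgroup.mem_centralizer_iff] at hg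
      exact hg (ι w) ⟨w, hw, rfl⟩
    · intro h ω hω
      refine h (show G from ω) ?_
      rw [Subgroup.mem_centralizer_iff]
      rintro _ ⟨w, hw, rfl⟩
      have := hω w hw
      change ι w * (show G from ω) * (ι w)⁻¹ = (show G from ω) at this
      rw [mul_inv_eq_iff_eq_mul] at this
      exact this

end Pool.Agent.PFC.H38
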