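import Pool.Agent.PFC.StmtsB5b

/-!
# Squad PFC, row MID: the last step of part (0)
-/

noncomputable section

namespace Pool.Agent.PFC.H38

open Pool.Agent.PFC

theorem mid (hSMD : SmdStmt) (hHGP : HgpStmt) (hSEX : SexStmt) : MidStmt := by
  intro F V E A _ _ _ _ _ _ _ _ ℓ _ φ e0 α _ hctx hm
  obtain ⟨y, hy1, hy2⟩ := hm.uni
  obtain ⟨γ, hγ1, hγ2⟩ := hSMD V E A φ e0 α y hctx.gen hy1 hy2
  have hα : γ.comp (SemidirectProduct.inl : V →* V ⋊[φ] E) = α := by
    ext u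
    exact hγ1 u
  have := hm.fin
  have hps : PS (fun K => ∃ (e : E) (R : Subgroup V), K = tw (φ e).toMonoidHom R)
      (bi F (γ.comp SemidirectProduct.inl)) := by
    rw [hα]
    exact hm.ps
  have hspn : Spn F (γ.comp (SemidirectProduct.inl : V →* V ⋊[φ] E)) := by
    rw [hα]
    exact hm.spn
  have hhig : HigA F γ := hHGP F V E A ℓ φ e0 γ hctx hps hspn
  obtain ⟨mu, hmu⟩ := hm.frm
  have hmu' : Frm F (γ.comp (SemidirectProduct.inl : V →* V ⋊[φ] E)) mu := by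
    rw [hα]
    exact hmu
  have hloc : IsLocalRing (Cz F (γ.comp (SemidirectProduct.inl : V →* V ⋊[φ] E)) ⊤) := by
    rw [hα]
    exact hm.loc
  have hone : (1 : A) ∉ BK (cj F (γ.comp (SemidirectProduct.inl : V →* V ⋊[φ] E))) ⊤ := by
    rw [hα]
    exact hm.one
  exact ⟨γ, hSEX F V E A ℓ φ e0 γ mu hctx hmu' hloc hone hhig⟩

end Pool.Agent.PFC.H38
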