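import Pool.Agent.PFC.StmtsB6

/-!
# Squad PFC, row ROT: the finite order of the unit
-/

noncomputable section

namespace Pool.Agent.PFC.H38

open Pool.Agent.PFC Pool.Agent.PP Polynomial

/-- a unit of a finite-dimensional local algebra has finite order -/
theorem unit_order {ℓ : ℕ} {F : Type} [Field F] (hF : GoodF ℓ F) {R : Type} [Ring R] [Algebra F R]
    [FiniteDimensional F R] [IsLocalRing R] (z z' : R) (h1 : z * z' = 1) (h1' : z' * z = 1) :
    ∃ k r : ℕ, ¬ ℓ ∣ r ∧ z ^ (ℓ ^ k * r) = 1 := by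
  have := hF.char
  have := hF.closed
  have := Fact.mk hF.prime
  have : CharP R ℓ := charP_of_injective_algebraMap (algebraMap F R).injective ℓ
  obtain ⟨c, hc⟩ := spectrum.nonempty_of_isAlgClosed_of_finiteDimensional F z
  -- the spectrum of `z - c` is `0`
  set w : R := z - algebraMap F R c with hw
  have hwn : ¬ IsUnit w := by
    intro h
    rw [spectrum.mem_iff] at hc
    apply hc
    have : algebraMap F R c - z = - w := by rw [hw, neg_sub]
    rw [this]
    exact h.neg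
  have hsp : ∀ μ : F, μ ≠ 0 → μ ∉ spectrum F w := by
    intro μ hμ h
    rw [spectrum.mem_iff] at h
    have h2 : IsUnit ((algebraMap F R μ - w) + w) := by
      rw [sub_add_cancel]
      exact (isUnit_iff_ne_zero.mpr hμ).map (algebraMap F R)
    rcases IsLocalRing.isUnit_or_isUnit_of_isUnit_add h2 with h3 | h3
    · exact h h3
    · exact hwn h3
  have hne : (spectrum F w).Nonempty := spectrum.nonempty_of_isAlgClosed_of_finiteDimensional F w
  -- so it is nilpotent
  have hnil : ∃ a : ℕ, w ^ a = 0 := by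
    have hp0 : minpoly F w ≠ 0 := minpoly.ne_zero (Algebra.IsIntegral.isIntegral w)
    obtain ⟨q, hq, hq2⟩ := exists_eq_pow_rootMultiplicity_mul_and_not_dvd (minpoly F w) hp0 0
    refine ⟨rootMultiplicity 0 (minpoly F w), ?_⟩
    have h3 : aeval w (minpoly F w) = 0 := minpoly.aeval F w
    rw [hq, map_mul, map_pow, C_0, sub_zero, aeval_X] at h3
    have h4 : IsUnit (aeval w q) := by
      have h5 : (0 : F) ∉ spectrum F (aeval w q) := by
        rw [spectrum.map_polynomial_aeval_of_nonempty w q hne]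
        rintro ⟨μ, hμ, hμ2⟩
        have h6 : μ = 0 := by
          by_contra h7
          exact hsp μ h7 hμ
        rw [h6] at hμ2
        apply hq2
        rw [dvd_iff_isRoot]
        exact hμ2
      exact (spectrum.zero_notMem_iff F).mp h5
    exact (h4.mul_left_eq_zero).mp h3
  obtain ⟨a, ha⟩ := hnil
  have hz : z = algebraMap F R c + w := by rw [hw]; abel
  have hpow : z ^ ℓ ^ a = algebraMap F R (c ^ ℓ ^ a) := by
    rw [hz, add_pow_char_pow_of_commute ℓ a (Algebra.commutes c w), map_pow]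
    have h8 : w ^ ℓ ^ a = 0 := by
      have h9 : a ≤ ℓ ^ a := (Nat.lt_pow_self hF.prime.one_lt).le
      obtain ⟨b, hb⟩ := Nat.exists_eq_add_of_le h9
      rw [hb, pow_add, ha, zero_mul]
    rw [h8, add_zero]
  have hc0 : c ^ ℓ ^ a ≠ 0 := by
    intro h
    rw [h, map_zero] at hpow
    have h10 : IsUnit z := by
      exact ⟨⟨z, z', h1, h1'⟩, rfl⟩
    exact (h10.pow (ℓ ^ a)).ne_zero hpow
  obtain ⟨n, hn, hn2⟩ := hF.tors _ hc0
  obtain ⟨j, r, hr, hjr⟩ := Nat.exists_eq_pow_mul_and_not_dvd hn.ne' ℓ hF.prime.ne_one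
  refine ⟨a, r, hr, ?_⟩
  rw [pow_mul, hpow, ← map_pow]
  have h12 : (c ^ ℓ ^ a) ^ r = 1 := by
    have h13 : ((c ^ ℓ ^ a) ^ r) ^ ℓ ^ j = 1 := by
      rw [← pow_mul, Nat.mul_comm r, ← hjr]
      exact hn2
    have h14 : (iterateFrobenius F ℓ j) ((c ^ ℓ ^ a) ^ r) = (iterateFrobenius F ℓ j) 1 := by
      rw [iterateFrobenius_def, iterateFrobenius_def, h13, one_pow]
    exact (iterateFrobenius F ℓ j).injective h14
  rw [h12, map_one]

theorem rot : RotStmt := by
  intro ℓ F _ hF W A _ _ _ _ _ α hloc s m hm hlm hsm y y' hy hy' hyα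
  have hp := hF.prime
  have hpow : ∀ (j : ℕ) (u : W), y ^ j * α u = α ((s ^ j) u) * y ^ j := by
    intro j
    induction j with
    | zero => intro u; simp
    | succ j ih =>
      intro u
      rw [pow_succ, mul_assoc, hyα, ← mul_assoc, ih, mul_assoc, pow_succ s j]
      rfl
  have hyy : ∀ j : ℕ, y ^ j * y' ^ j = 1 := by
    intro j
    have hcomm : Commute y y' := by rw [Commute, SemiconjBy, hy, hy']
    rw [← hcomm.mul_pow, hy, one_pow]
  have hyy' : ∀ j : ℕ, y' ^ j * y ^ j = 1 := by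
    intro j
    have hcomm : Commute y' y := by rw [Commute, SemiconjBy, hy, hy']
    rw [← hcomm.mul_pow, hy', one_pow]
  have hz : ∀ u, y ^ m * α u = α u * y ^ m := by
    intro u
    rw [hpow, hsm]
    rfl
  have hz' : ∀ u, y' ^ m * α u = α u * y' ^ m := by
    intro u
    calc y' ^ m * α u = y' ^ m * α u * (y ^ m * y' ^ m) := by rw [hyy, mul_one]
      _ = y' ^ m * (α u * y ^ m) * y' ^ m := by simp only [mul_assoc]
      _ = y' ^ m * (y ^ m * α u) * y' ^ m := by rw [hz]
      _ = (y' ^ m * y ^ m) * α u * y' ^ m := by simp only [mul_assoc]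
      _ = α u * y' ^ m := by rw [hyy', one_mul]
  have hmem : y ^ m ∈ Cz F α ⊤ := by
    rw [Cz, Subalgebra.mem_centralizer_iff]
    rintro _ ⟨u, -, rfl⟩
    exact (hz u).symm
  have hmem' : y' ^ m ∈ Cz F α ⊤ := by
    rw [Cz, Subalgebra.mem_centralizer_iff]
    rintro _ ⟨u, -, rfl⟩
    exact (hz' u).symm
  obtain ⟨k, r, hr, hkr⟩ := unit_order hF (R := Cz F α ⊤) ⟨y ^ m, hmem⟩ ⟨y' ^ m, hmem'⟩
    (Subtype.ext (hyy m)) (Subtype.ext (hyy' m))
  have hkr' : y ^ (m * (ℓ ^ k * r)) = 1 := by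
    rw [pow_mul]
    have := congrArg Subtype.val hkr
    exact this
  have hmr : ¬ ℓ ∣ m * r := by
    rw [hp.dvd_mul]
    rintro (h | h)
    · exact hlm h
    · exact hr h
  have hcop : Nat.Coprime (m * r) (ℓ ^ k) :=
    Nat.Coprime.pow_right k ((Nat.Prime.coprime_iff_not_dvd hp).mpr hmr).symm
  obtain ⟨t, ht1, ht2⟩ := Nat.chineseRemainder hcop 1 0
  refine ⟨y ^ t, y' ^ t, m * r, hyy t, hyy' t, ?_, ?_, hmr⟩
  · intro u
    rw [hpow]
    have h1 : s ^ t = s := by
      have h2 : t ≡ 1 [MOD m] := Nat.ModEq.of_mul_right r ht1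
      have h3 := pow_eq_pow_of_modEq h2 hsm
      rw [h3, pow_one]
    rw [h1]
  · obtain ⟨t', rfl⟩ := (Nat.modEq_zero_iff_dvd).mp ht2
    have h4 : ℓ ^ k * t' * (m * r) = (m * (ℓ ^ k * r)) * t' := by ring
    rw [← pow_mul, h4, pow_mul, hkr', one_pow]

end Pool.Agent.PFC.H38
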